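import Mathlib
import Pool.Agent.TH344.SH.Cnt
import Pool.Agent.W307.FK.Main
import Pool.Agent.W307.RT.Tors

/-!
# Tate-Shafarevich groups of all the curves with full rational 2-torsion

All elliptic curves over `ℚ` with full rational 2-torsion, ordered by the absolute value of the
minimal discriminant, or by height: the 2-primary torsion of the Tate-Shafarevich group `Ш` is
bounded on average, together with the rank. The average of `(2 ^ rank * #Ш[2]) ^ 2` and the average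
of `4 ^ rank * #Ш[4]` are bounded by a constant, and so is the average of `4 ^ (rank + t)`, where `t`
is the corank of the 2-primary part of `Ш`.

The group `Ш` is that of `Pool.Agent.TH344.SH.Def`: classes of continuous 1-cocycles of the absolute
Galois group of `ℚ` with values in the points over the algebraic numbers, that are trivial over all
completions `ℚ_p` and `ℝ`.
-/

namespace Pool.Agent.TH344.Var.ShaTwoMoments

open Finset Pool.Agent.TH344.SH

/-- the curve `y² = x³ + A x + B` over `ℚ` -/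
def E (A B : ℤ) : WeierstrassCurve ℚ := ⟨0, 0, 0, (A : ℚ), (B : ℚ)⟩

/-- the absolute value of the minimal discriminant of an elliptic curve `W` over `ℚ`: the smallest
absolute value of the discriminant of a Weierstrass equation `V` with integer coefficients which is
isomorphic to `W` over `ℚ` -/
noncomputable def minDisc (W : WeierstrassCurve ℚ) : ℕ :=
  sInf {n : ℕ | ∃ (V : WeierstrassCurve ℤ) (C : WeierstrassCurve.VariableChange ℚ),
    C • W = V.map (Int.castRingHom ℚ) ∧ n = V.Δ.natAbs}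

/-- The pairs `(A, B)` of integers such that `4 A³ + 27 B² ≠ 0`, there is no prime `p` with
`p⁴ ∣ A` and `p⁶ ∣ B`, and `Z/2 x Z/2` embeds in the group of the rational points of
`y² = x³ + A x + B`. Every elliptic curve over `ℚ` with full rational 2-torsion is isomorphic to
`E A B` for exactly one of these pairs. -/
def Fam : Set (ℤ × ℤ) :=
  {c : ℤ × ℤ | 4 * c.1 ^ 3 + 27 * c.2 ^ 2 ≠ 0 ∧
    (∀ p : ℕ, p.Prime → ¬ ((p : ℤ) ^ 4 ∣ c.1 ∧ (p : ℤ) ^ 6 ∣ c.2)) ∧
    (∃ f : ZMod 2 × ZMod 2 →+ (E c.1 c.2).toAffine.Point, Function.Injective f)}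

/-- the curves of minimal discriminant at most `Z` -/
def FamD (Z : ℕ) : Set (ℤ × ℤ) := {c | c ∈ Fam ∧ minDisc (E c.1 c.2) ≤ Z}

/-- the curves of height `max (4 |A|³) (27 B²)` at most `H` -/
def FamH (H : ℕ) : Set (ℤ × ℤ) := {c | c ∈ Fam ∧ 4 * |c.1| ^ 3 ≤ H ∧ 27 * c.2 ^ 2 ≤ H}

/-- the rank -/
noncomputable def rank (c : ℤ × ℤ) : ℕ := Module.finrank ℤ (E c.1 c.2).toAffine.Point

/-- the number of the elements of `Ш(E / ℚ)` killed by `n` -/
noncomputable def sha (n : ℕ) (c : ℤ × ℤ) : ℕ := Nat.card (ShaTorsion (E c.1 c.2) n)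

open scoped Classical in
/-- The corank of the 2-primary part of `Ш(E / ℚ)`: the largest `t` such that `(ℤ / 2 ^ n) ^ t` embeds
in `Ш(E / ℚ)` for all `n`. (The 2-primary part is the direct sum of `t` copies of `ℚ_2 / ℤ_2` and a
finite group; it is finite if and only if `t = 0`.) -/
noncomputable def corank (c : ℤ × ℤ) : ℕ :=
  sSup {t : ℕ | ∀ n : ℕ, ∃ f : (Fin t → ZMod (2 ^ n)) →+ Sha (E c.1 c.2), Function.Injective f}

/-- The averages over the finite set `S` of the curves: the elements of `Ш` killed by four form a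
finite group, and the averages of `(2 ^ rank * #Ш[2]) ^ 2`, of `4 ^ rank * #Ш[4]` and of
`4 ^ (rank + corank)` are at most `C`. -/
def AverageAtMost (C : ℝ) (S : Finset (ℤ × ℤ)) : Prop :=
  (∀ c ∈ S, Finite (ShaTorsion (E c.1 c.2) 4)) ∧
  ∑ c ∈ S, ((2 ^ rank c * sha 2 c : ℕ) : ℝ) ^ 2 ≤ C * S.card ∧
  ∑ c ∈ S, ((4 ^ rank c * sha 4 c : ℕ) : ℝ) ≤ C * S.card ∧
  ∑ c ∈ S, ((4 ^ (rank c + corank c) : ℕ) : ℝ) ≤ C * S.card

lemma hasT_iff (c : ℤ × ℤ) : Pool.Agent.W307.RT.HasT 2 (Pool.Agent.W307.RT.Sh c.1 c.2) ↔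
    ∃ f : ZMod 2 × ZMod 2 →+ (E c.1 c.2).toAffine.Point, Function.Injective f :=
  Pool.Agent.W307.RT.tors_iff

lemma FamD_eq (Z : ℕ) : FamD Z = Pool.Agent.W307.RS.DvS 2 Z := by
  ext c
  have h := hasT_iff c
  unfold FamD Fam Pool.Agent.W307.RS.DvS
  rw [Set.mem_ofPred_eq, Set.mem_ofPred_eq, Set.mem_ofPred_eq, h]
  exact ⟨fun h => ⟨h.1.1, h.1.2.1, h.1.2.2, h.2⟩, fun h => ⟨⟨h.1, h.2.1, h.2.2.1⟩, h.2.2.2⟩⟩

open scoped Classical in
lemma FamH_eq (H : ℕ) : FamH H = (Pool.Agent.W307.RT.Cv 2 H : Set (ℤ × ℤ)) := by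
  ext c
  have h := hasT_iff c
  unfold FamH Fam Pool.Agent.W307.RT.Cv
  rw [Set.mem_ofPred_eq, Set.mem_ofPred_eq, mem_coe, mem_filter, h, mem_product, mem_Icc, mem_Icc]
  constructor
  · rintro ⟨⟨h1, h2, h3⟩, h4, h5⟩
    refine ⟨⟨?_, ?_⟩, h1, h4, h5, h2, h3⟩
    · rw [← abs_le]
      have h0 := abs_nonneg c.1
      rcases eq_or_lt_of_le h0 with h6 | h6
      · rw [← h6]; positivity
      · have : 1 ≤ |c.1| := h6
        nlinarith [mul_nonneg h0 h0, mul_self_nonneg (|c.1| - 1)]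
    · rw [← abs_le]
      have h0 := abs_nonneg c.2
      rw [← sq_abs] at h5
      rcases eq_or_lt_of_le h0 with h6 | h6
      · rw [← h6]; positivity
      · have : 1 ≤ |c.2| := h6
        nlinarith
  · rintro ⟨-, h1, h4, h5, h2, h3⟩
    exact ⟨⟨h1, h2, h3⟩, h4, h5⟩

open scoped Classical in
/-- one curve -/
lemma curve {c : ℤ × ℤ} (h0 : 4 * c.1 ^ 3 + 27 * c.2 ^ 2 ≠ 0)
    (hT : Pool.Agent.W307.RT.HasT 2 (Pool.Agent.W307.RT.Sh c.1 c.2))
    (hfin : (Pool.Agent.W307.SE.SelR c.1 c.2).Finite) :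
    Finite (ShaTorsion (E c.1 c.2) 4) ∧
      2 ^ rank c * sha 2 c ≤ (Pool.Agent.W307.SE.SelR c.1 c.2).ncard ∧
      4 ^ rank c * sha 4 c ≤ (2 ^ rank c * sha 2 c) ^ 2 := by
  obtain ⟨F, -, hF⟩ := Pool.Agent.W513.FK.parf
  obtain ⟨-, -, -, -, -, e1, e2, e3, he, -, -⟩ := hF c h0 hT
  obtain ⟨h1, h2⟩ := sha_sel h0 he hfin
  obtain ⟨h3, h4⟩ := four_le (G := Sha (E c.1 c.2)) h1
  refine ⟨h3, h2, ?_⟩
  calc 4 ^ rank c * sha 4 c ≤ 4 ^ rank c * sha 2 c ^ 2 := Nat.mul_le_mul_left _ h4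
    _ = (2 ^ rank c * sha 2 c) ^ 2 := by
      rw [mul_pow, ← pow_mul, mul_comm (rank c) 2, pow_mul]
      norm_num

open scoped Classical in
lemma corank_le {c : ℤ × ℤ} (h : Finite (ShaTorsion (E c.1 c.2) 4)) : 4 ^ corank c ≤ sha 4 c := by
  have key : ∀ t ∈ {t : ℕ | ∀ n : ℕ, ∃ f : (Fin t → ZMod (2 ^ n)) →+ Sha (E c.1 c.2),
      Function.Injective f}, 4 ^ t ≤ sha 4 c := by
    intro t ht
    obtain ⟨f, hf⟩ := ht 2
    have h1 : Nat.card (Fin t → ZMod (2 ^ 2)) = 4 ^ t := by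
      rw [Nat.card_fun, Nat.card_zmod, Nat.card_fin]
      norm_num
    rw [← h1]
    have h2 : ∀ v : Fin t → ZMod (2 ^ 2), 4 • f v = 0 := by
      intro v
      rw [← map_nsmul]
      have h3 : 4 • v = 0 := by
        funext i
        rw [Pi.smul_apply, Pi.zero_apply, nsmul_eq_mul]
        have h4 : ((4 : ℕ) : ZMod (2 ^ 2)) = 0 := by decide
        rw [h4, zero_mul]
      rw [h3, map_zero]
    exact Nat.card_le_card_of_injective
      (fun v => (⟨f v, h2 v⟩ : ShaTorsion (E c.1 c.2) 4))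
      (fun v w hvw => hf (congrArg Subtype.val hvw))
  apply key
  apply Nat.sSup_mem
  · refine ⟨0, fun n => ⟨0, fun v w _ => Subsingleton.elim v w⟩⟩
  · refine ⟨sha 4 c, fun t ht => ?_⟩
    exact (Nat.lt_pow_self (by norm_num)).le.trans (key t ht)

lemma average {C : ℝ} {S : Finset (ℤ × ℤ)}
    (h0 : ∀ c ∈ S, 4 * c.1 ^ 3 + 27 * c.2 ^ 2 ≠ 0 ∧
      Pool.Agent.W307.RT.HasT 2 (Pool.Agent.W307.RT.Sh c.1 c.2))
    (hfin : ∀ c ∈ S, (Pool.Agent.W307.SE.SelR c.1 c.2).Finite)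
    (h : ∑ c ∈ S, ((Pool.Agent.W307.SE.SelR c.1 c.2).ncard : ℝ) ^ 2 ≤ C * S.card) :
    AverageAtMost C S := by
  have key := fun c (hc : c ∈ S) => curve (h0 c hc).1 (h0 c hc).2 (hfin c hc)
  have h1 : ∑ c ∈ S, ((2 ^ rank c * sha 2 c : ℕ) : ℝ) ^ 2 ≤ C * S.card := by
    refine le_trans (sum_le_sum fun c hc => ?_) h
    exact pow_le_pow_left₀ (Nat.cast_nonneg _) (by exact_mod_cast (key c hc).2.1) 2
  have h2 : ∑ c ∈ S, ((4 ^ rank c * sha 4 c : ℕ) : ℝ) ≤ C * S.card := by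
    refine le_trans (sum_le_sum fun c hc => ?_) h1
    exact_mod_cast (key c hc).2.2
  refine ⟨fun c hc => (key c hc).1, h1, h2, le_trans (sum_le_sum fun c hc => ?_) h2⟩
  rw [pow_add]
  exact_mod_cast Nat.mul_le_mul_left _ (corank_le (key c hc).1)

/-- **Theorem.** There is a constant `C` such that for all `Z` and `H`: there are finitely many
elliptic curves over `ℚ` with full rational 2-torsion and minimal discriminant at most `Z` in
absolute value (height at most `H`), and the averages over these curves of `(2 ^ rank * #Ш[2]) ^ 2`,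
of `4 ^ rank * #Ш[4]` and of `4 ^ (rank + corank)` are at most `C`. -/
theorem result : ∃ C : ℝ,
    (∀ Z : ℕ, ∃ hfin : (FamD Z).Finite, AverageAtMost C hfin.toFinset) ∧
    (∀ H : ℕ, ∃ hfin : (FamH H).Finite, AverageAtMost C hfin.toFinset) := by
  obtain ⟨C1, hC1⟩ := Pool.Agent.W307.FK.find
  obtain ⟨C2, hC2⟩ := Pool.Agent.W307.FK.finh
  have mono : ∀ {C C' : ℝ} {S : Finset (ℤ × ℤ)}, C ≤ C' → AverageAtMost C S →
      AverageAtMost C' S := by
    intro C C' S hCC h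
    have h1 : C * S.card ≤ C' * S.card := mul_le_mul_of_nonneg_right hCC (Nat.cast_nonneg _)
    exact ⟨h.1, h.2.1.trans h1, h.2.2.1.trans h1, h.2.2.2.trans h1⟩
  refine ⟨max C1 C2, fun Z => ?_, fun H => ?_⟩
  · obtain ⟨h1, h2, h3⟩ := hC1 Z
    rw [← FamD_eq] at h1 h2 h3
    refine ⟨h1, mono (le_max_left _ _) (average (fun c hc => ?_) (fun c hc => ?_)
      (h3 h1.toFinset h1.coe_toFinset))⟩
    · have := h1.mem_toFinset.1 hc
      rw [FamD_eq] at this
      exact ⟨this.1, this.2.2.1⟩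
    · exact h2 c (h1.mem_toFinset.1 hc)
  · obtain ⟨h2, h3⟩ := hC2 H
    have h1 : (FamH H).Finite := by rw [FamH_eq]; exact finite_toSet _
    have h4 : h1.toFinset = Pool.Agent.W307.RT.Cv 2 H := by
      ext c
      rw [h1.mem_toFinset, FamH_eq, mem_coe]
    refine ⟨h1, mono (le_max_right _ _) ?_⟩
    rw [h4]
    refine average (fun c hc => ?_) (fun c hc => h2 c hc) h3
    classical
    have h5 := (mem_filter.1 hc).2
    exact ⟨h5.1, h5.2.2.2.2⟩

end Pool.Agent.TH344.Var.ShaTwoMoments
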